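import Pool.Agent.V202T.SelfDualConj

/-!
# Every Chow-Kunneth decomposition is conjugate to a self-dual one

`𝒱` is a class of smooth projective geometrically irreducible varieties over the field `k` closed
under products (for example all of them), `C` the Chow groups with rational coefficients (in the
form of their formal properties, `IsChowProj`) and `H` a Weil cohomology theory (`IsWeilProj`).

Let `X` be a variety such that the homologically trivial self-correspondences of degree zero of `X`
form a nilpotent ideal (`NilpotentOfIndex H X n` for some `n`).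

1. For each Chow-Kunneth decomposition `π` of `X` there are inverse self-correspondences `r`, `e` of
  degree zero, which act as the identity on the cohomology, such that `r` is symmetric and
  `r ∘ π_i ∘ e` is a self-dual Chow-Kunneth decomposition of `X`.
2. Two self-dual Chow-Kunneth decompositions `π`, `π'` of `X` are conjugate by an orthogonal
  self-correspondence `s`, which acts as the identity on the cohomology: `s ∘ ᵗs = ᵗs ∘ s = Δ` and
  `π'_i = s ∘ π_i ∘ ᵗs`.

The hypothesis holds, with `n = 2 dim X + 1`, if `X` has a Chow-Kunneth decomposition and `X × X`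
satisfies Murre's conjecture (D) (3), and for `X` with finite-dimensional motive (Kimura).

Outline of the proof. (1) `s = ∑ (ᵗπ_{2d-i}) ∘ π_i` is symmetric and conjugates `π` to the dual
decomposition; conjugate by the square root of `s`, a polynomial in `s`. (2) If `π'_i = s π_i t` then
`ᵗs s` commutes with the `π_i`; replace `s` by `s (ᵗs s)^(-1/2)`.
-/

open CategoryTheory AlgebraicGeometry

universe u v w

namespace Pool.Agent.Results.MP_8a7054_ag.ConjugateToSelfDual

open Pool.Agent.H914 Pool.Agent.H914.VarClass Pool.Agent.H914.VarClass.Obj Pool.Agent.W492.BB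
  Pool.Agent.TH133 Pool.Agent.V1157.MJ Pool.Agent.V202T

theorem result {k : Type u} [Field k] {𝒱 : VarClass k} (C : TheoryData.{u, v, 0} 𝒱 ℚ)
    [IsChowProj C] {K : Type w} [Field K] (H : WeilTheoryData.{u, v, w} C K) [IsWeilProj H]
    (X : 𝒱.Obj) :
    (∀ n, NilpotentOfIndex H X n → ∀ π, IsCK H X π →
      ∃ r e, tp C r = r ∧ UnipotentPair H X r e ∧
        IsCK H X (conjCK C r e π) ∧ IsSelfDual C (conjCK C r e π)) ∧
    (∀ n, NilpotentOfIndex H X n → ∀ π π', IsCK H X π → IsCK H X π' → IsSelfDual C π →
      IsSelfDual C π' → ∃ s, UnipotentPair H X s (tp C s) ∧ π' = conjCK C s (tp C s) π) ∧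
    ((∃ π, IsCK H X π) → MurreD H (X.prod X) → NilpotentOfIndex H X (2 * X.dim + 1)) := by
  refine ⟨?_, ?_, ?_⟩
  · intro n hn π hπ
    obtain ⟨r, e, h1, h2, h3⟩ := to_selfDual hn hπ
    exact ⟨r, e, h1, h2, isCK_conj hπ h2, h3⟩
  · intro n hn π π' hπ hπ' hs hs'
    exact orthogonal hn hπ hπ' hs hs'
  · intro hA hD
    exact nilpotent_of_strictlyLowers X hA (strictlyLowers_of_D X hD)

end Pool.Agent.Results.MP_8a7054_ag.ConjugateToSelfDual
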