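import Pool.Agent.V202T.SelfDualEquiv

/-!
# Self-dual Chow-Kunneth decompositions invariant under finite groups

`𝒱` is a class of smooth projective geometrically irreducible varieties over the field `k` closed
under products (for example all of them), `C` the Chow groups with rational coefficients (in the
form of their formal properties, `IsChowProj`) and `H` a Weil cohomology theory (`IsWeilProj`).

Let `X` be a variety with a Chow-Kunneth decomposition such that the homologically trivial
self-correspondences of degree zero of `X` form a nilpotent ideal (`NilpotentOfIndex H X n` for some
`n`; for instance, `X × X` satisfies Murre's conjecture (D), or the motive of `X` is finite-dimensional).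
Let a finite group `G` act on `X` by automorphisms, or more generally by orthogonal correspondences
`ρ g` (`OrthAction`). Then `X` has a self-dual Chow-Kunneth decomposition whose members commute with
all `ρ g`.

Outline of the proof. The averages of the `π_i` over `G` are idempotents modulo homologically trivial
correspondences, and they can be lifted to orthogonal idempotents in the ring of the correspondences
which commute with `G`. This ring is stable under transposition, and the symmetric correspondence which
conjugates the new decomposition to a self-dual one is a polynomial in elements of this ring.
-/

open CategoryTheory AlgebraicGeometry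

universe u v w

namespace Pool.Agent.Results.MP_8a7054_ag.EquivariantSelfDual

open Pool.Agent.H914 Pool.Agent.H914.VarClass Pool.Agent.H914.VarClass.Obj Pool.Agent.W492.BB
  Pool.Agent.TH133 Pool.Agent.V202T

theorem result {k : Type u} [Field k] {𝒱 : VarClass k} (C : TheoryData.{u, v, 0} 𝒱 ℚ)
    [IsChowProj C] {K : Type w} [Field K] (H : WeilTheoryData.{u, v, w} C K) [IsWeilProj H]
    (X : 𝒱.Obj) (n : ℕ) (hn : NilpotentOfIndex H X n) (hA : ∃ π, IsCK H X π)
    (G : Type) [Group G] [Finite G] (ρ : G → C.A (X.prod X)) (hρ : OrthAction C X ρ) :
    ∃ π, IsCK H X π ∧ IsSelfDual C π ∧ ∀ g i, C.comp (ρ g) (π i) = C.comp (π i) (ρ g) :=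
  equivariant' hn hA ρ hρ

end Pool.Agent.Results.MP_8a7054_ag.EquivariantSelfDual
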