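import Pool.Agent.V11244.SD.Main

/-!
# Self-dual Chow-Kunneth decompositions: only the defect of self-duality has to be nilpotent

`𝒱` is a class of smooth projective geometrically irreducible varieties over the field `k` closed
under products (for example all of them), `C` the Chow groups with rational coefficients (in the
form of their formal properties, `IsChowProj`) and `H` a Weil cohomology theory (`IsWeilProj`).

Let `π` be a Chow-Kunneth decomposition of `X`, `d = dim X`, not necessarily self-dual. The
correspondence `defect π = Δ_X - ∑ σ^*(π_(2d-i)) ∘ π_i` is homologically trivial. If it is nilpotent,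
then `π` is conjugate to a self-dual Chow-Kunneth decomposition, by a unit which acts as the identity
on the cohomology. So `X` has a self-dual Chow-Kunneth decomposition if and only if the defect of
some Chow-Kunneth decomposition is nilpotent. No other correspondence has to be nilpotent.

Proof: `u = 1 - defect π` intertwines `π` and the dual decomposition and is equal to its transpose;
so is its square root `v`, and `v ∘ π_i ∘ v⁻¹` is self-dual.
-/

set_option autoImplicit false

universe u v w

namespace Pool.Agent.Results.MP_8a7054_ag.NilpotentDefect

open Pool.Agent.H914 Pool.Agent.W492.BB Pool.Agent.TH133 Pool.Agent.V11244.SD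

/-- 1. The defect of self-duality of a Chow-Kunneth decomposition `π` acts as zero on the
cohomology; if it is nilpotent, then there is a self-dual Chow-Kunneth decomposition `q` which is
conjugate to `π` by a unit acting as the identity on the cohomology.

2. `X` has a self-dual Chow-Kunneth decomposition if and only if it has a Chow-Kunneth decomposition
with nilpotent defect of self-duality. -/
theorem result {k : Type u} [Field k] {𝒱 : VarClass k} (C : TheoryData.{u, v, 0} 𝒱 ℚ)
    [IsChowProj C] {K : Type w} [Field K] (H : WeilTheoryData.{u, v, w} C K) [IsWeilProj H]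
    (X : 𝒱.Obj) :
    (∀ π : ℕ → C.A (X.prod X), IsCK H X π →
      (∀ a : H.A X, H.act (H.cl (defect C π)) a = 0) ∧
      ∀ m : ℕ, PowZero C (defect C π) m →
        ∃ q : ℕ → C.A (X.prod X), IsCK H X q ∧ IsSelfDual C q ∧ Conjugate H π q) ∧
    ((∃ q : ℕ → C.A (X.prod X), IsCK H X q ∧ IsSelfDual C q) ↔
      ∃ (π : ℕ → C.A (X.prod X)) (m : ℕ), IsCK H X π ∧ PowZero C (defect C π) m) := by
  refine ⟨fun π h => ⟨fun a => LinearMap.congr_fun (act_defect h) a, fun m hm => main h hm⟩,
    ?_, ?_⟩
  · rintro ⟨q, hq, hs⟩
    refine ⟨q, 1, hq, ?_⟩
    rw [defect_selfDual hq hs]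
    exact Pool.Agent.W550.Corr.zero_comp C _
  · rintro ⟨π, m, h, hm⟩
    obtain ⟨q, hq, hs, -⟩ := main h hm
    exact ⟨q, hq, hs⟩

end Pool.Agent.Results.MP_8a7054_ag.NilpotentDefect
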