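import Pool.Agent.V11244.CK.Skew

/-!
# Self-dual Chow-Kunneth decompositions: one skew correspondence is enough

`𝒱` is a class of smooth projective geometrically irreducible varieties over the field `k` closed
under products (for example all of them), `C` the Chow groups with rational coefficients (in the
form of their formal properties, `IsChowProj`) and `H` a Weil cohomology theory (`IsWeilProj`).

`X`, `d = dim X`, has a self-dual Chow-Kunneth decomposition if and only if there is a
self-correspondence `b` of degree zero with transpose `-b` which acts on `H^i(X)` as the
multiplication by `i - d` and for which the one correspondence `∏_{-d ≤ j ≤ d} (b - j)`, which is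
homologically trivial, is nilpotent. The existence of a Chow-Kunneth decomposition is not assumed.
-/

set_option autoImplicit false

universe u v w

namespace Pool.Agent.Results.MP_8a7054_ag.SkewCorrespondence

open Pool.Agent.H914 Pool.Agent.W492.BB Pool.Agent.TH133 Pool.Agent.V11244.CK

/-- `X` has a self-dual Chow-Kunneth decomposition if and only if there is a skew correspondence `b`
which acts on `H^i(X)` as `i - dim X`, and such that `∏_{-d ≤ j ≤ d} (b - j)` is nilpotent. -/
theorem result {k : Type u} [Field k] {𝒱 : VarClass k} (C : TheoryData.{u, v, 0} 𝒱 ℚ)
    [IsChowProj C] {K : Type w} [Field K] (H : WeilTheoryData.{u, v, w} C K) [IsWeilProj H]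
    (X : 𝒱.Obj) :
    (∃ π : ℕ → C.A (X.prod X), IsCK H X π ∧ IsSelfDual C π) ↔
      ∃ b : C.A (X.prod X), IsSkewDegree H b := by
  constructor
  · rintro ⟨π, h, hs⟩
    exact skew_converse h hs
  · rintro ⟨b, h⟩
    exact skew_main h

end Pool.Agent.Results.MP_8a7054_ag.SkewCorrespondence
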